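import Mathlib.Data.Nat.Choose.Factorization
import Mathlib.GroupTheory.Sylow
import Mathlib.Topology.Sheaves.Presheaf
import Mathlib.Data.Int.Star
import Mathlib.Algebra.Order.Ring.Star
import Mathlib.Analysis.SpecialFunctions.Pow.Asymptotics
import Mathlib.Algebra.Order.Star.Real
import Mathlib.Analysis.Complex.ExponentialBounds
import Mathlib.GroupTheory.GroupAction.Jordan
import Mathlib.GroupTheory.Perm.Centralizer
import Mathlib.RingTheory.PiTensorProduct
import Mathlib.NumberTheory.Primorial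
import Mathlib.Tactic.Algebra.Basic

-- ======== part 0: formerly Pool.Agent.MP_afae70_pr.Jordan
section MrgPart0

set_option autoImplicit false

open Equiv Equiv.Perm MulAction Subgroup

namespace Pool.Agent.MP_afae70_pr

variable {X : Type} [Fintype X] [DecidableEq X]

lemma fix_preprimitive {G : Subgroup (Perm X)} {p : ℕ} (hp : p.Prime)
    {g : Perm X} (hgc : g.IsCycle) (hgp : g.support.card = p) (hg : g ∈ G) :
    IsPreprimitive (fixingSubgroup G (g.support : Set X)ᶜ)
      (SubMulAction.ofFixingSubgroup G (g.support : Set X)ᶜ) := by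
  classical
  have := isPretransitive_of_isCycle_mem hgc hg
  apply IsPreprimitive.of_prime_card
  convert! hp
  rw [Nat.card_eq_fintype_card, Fintype.card_subtype, ← hgp]
  apply congr_arg
  ext x
  simp [SubMulAction.mem_ofFixingSubgroup_iff]

/-- A transitive group containing a cycle of prime length more than half the degree
is primitive. -/
lemma preprimitive_of_big_cycle {G : Subgroup (Perm X)} (hG : IsPretransitive G X)
    {p : ℕ} (hp : p.Prime) (hp' : Fintype.card X < 2 * p)
    {g : Perm X} (hgc : g.IsCycle) (hgp : g.support.card = p) (hg : g ∈ G) :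
    IsPreprimitive G X := by
  have := fix_preprimitive hp hgc hgp hg
  apply IsPreprimitive.of_card_lt
    (f := SubMulAction.ofFixingSubgroup_equivariantMap G (g.support : Set X)ᶜ)
  have : Set.range (SubMulAction.ofFixingSubgroup_equivariantMap G (g.support : Set X)ᶜ)
      = (g.support : Set X) := by
    ext x
    constructor
    · rintro ⟨⟨y, hy⟩, rfl⟩
      rw [SubMulAction.mem_ofFixingSubgroup_iff] at hy
      have : y ∈ (g.support : Set X) := by simpa using hy
      exact this
    · intro hx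
      exact ⟨⟨x, by rw [SubMulAction.mem_ofFixingSubgroup_iff]; simpa using hx⟩, rfl⟩
  rw [this, Set.ncard_coe_finset, hgp, Nat.card_eq_fintype_card]
  exact hp'

/-- High transitivity outside the support. -/
lemma exists_agree {G : Subgroup (Perm X)} (hG : IsPreprimitive G X)
    {p : ℕ} (hp : p.Prime) (hp' : p + 3 ≤ Fintype.card X)
    {g : Perm X} (hgc : g.IsCycle) (hgp : g.support.card = p) (hg : g ∈ G) (π : Perm X) :
    ∃ x ∈ G, ∀ y, y ∉ g.support → x y = π y := by
  classical
  obtain ⟨n, hn⟩ : ∃ n, Fintype.card X = p + (n + 1) := ⟨Fintype.card X - p - 1, by omega⟩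
  have hsc : Set.ncard ((g.support)ᶜ : Set X) = n + 1 := by
    apply Nat.add_left_cancel
    rw [Set.ncard_add_ncard_compl, Set.ncard_coe_finset, hgp, Nat.card_eq_fintype_card, hn]
  have h2 := hp.two_le
  have hm : IsMultiplyPreprimitive G X (n + 2) :=
    hG.isMultiplyPreprimitive hsc (by rw [Nat.card_eq_fintype_card]; omega)
      (fix_preprimitive hp hgc hgp hg)
  have ht : IsMultiplyPretransitive G X (n + 2) :=
    IsMultiplyPreprimitive.isMultiplyPretransitive ..
  have ht' : IsMultiplyPretransitive G X (n + 1) :=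
    isMultiplyPretransitive_of_le (n := n + 2) (by omega)
      (by rw [Nat.card_eq_fintype_card]; omega)
  have hcard : (g.supportᶜ : Finset X).card = n + 1 := by
    rw [Finset.card_compl, hgp]; omega
  let e : Fin (n + 1) ↪ X :=
    ((g.supportᶜ : Finset X).equivFinOfCardEq hcard).symm.toEmbedding.trans
      (Function.Embedding.subtype _)
  obtain ⟨x, hx⟩ := (isMultiplyPretransitive_iff.1 ht') e (e.trans π.toEmbedding)
  refine ⟨x, x.2, fun y hy => ?_⟩
  have hy' : y ∈ (g.supportᶜ : Finset X) := by simpa using hy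
  have := congrArg (fun f : Fin (n + 1) ↪ X =>
    f ((g.supportᶜ : Finset X).equivFinOfCardEq hcard ⟨y, hy'⟩)) hx
  have h3 : x • y = π y := by simpa [e] using this
  exact h3

/-- Sylow step. -/
lemma exists_conj_mem_zpowers {G : Subgroup (Perm X)}
    {p : ℕ} (hp : p.Prime)
    {g : Perm X} (hgc : g.IsCycle) (hgp : g.support.card = p) (hg : g ∈ G)
    {h : Perm X} (hh : h ∈ G) (hho : orderOf h = p) (hhs : h.support ⊆ g.support) :
    ∃ f ∈ G, f.support ⊆ g.support ∧ f * h * f⁻¹ ∈ zpowers g := by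
  classical
  have := Fact.mk hp
  let R : Subgroup (Perm X) := (ofSubtype : Perm {x // x ∈ g.support} →* Perm X).range
  have hR : ∀ f : Perm X, f ∈ R ↔ f.support ⊆ g.support := by
    intro f
    rw [mem_range_ofSubtype_iff]
    constructor
    · intro h1 x hx; exact h1 hx
    · intro h1 x hx; exact h1 hx
  let F : Subgroup (Perm X) := G ⊓ R
  have hRc : Nat.card R ∣ p.factorial := by
    have := Subgroup.card_range_dvd (ofSubtype : Perm {x // x ∈ g.support} →* Perm X)
    rwa [Nat.card_perm, Nat.card_eq_fintype_card (α := {x // x ∈ g.support}),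
      Fintype.card_coe, hgp] at this
  have hFc : Nat.card F ∣ p.factorial := (Subgroup.card_dvd_of_le inf_le_right).trans hRc
  have hgF : g ∈ F := ⟨hg, (hR g).2 le_rfl⟩
  have hhF : h ∈ F := ⟨hh, (hR h).2 hhs⟩
  have hgo : orderOf g = p := by rw [hgc.orderOf, hgp]
  have hfac : (Nat.card F).factorization p ≤ 1 := by
    have h1 : (Nat.card F).factorization p ≤ (p.factorial).factorization p :=
      (Nat.factorization_le_iff_dvd Nat.card_pos.ne' p.factorial_ne_zero).2 hFc p
    have h2 : (p.factorial).factorization p = 1 := by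
      obtain ⟨q, rfl⟩ : ∃ q, p = q + 1 := ⟨p - 1, by have := hp.pos; omega⟩
      rw [Nat.factorial_succ, Nat.factorization_mul (by omega) q.factorial_ne_zero]
      simp only [Finsupp.add_apply, hp.factorization_self]
      have : (q.factorial).factorization (q + 1) = 0 :=
        Nat.factorization_eq_zero_of_not_dvd (by rw [hp.dvd_factorial]; omega)
      omega
    omega
  have key : ∀ (u : F), orderOf u = p → ∃ P : Sylow p F, (P : Subgroup F) = zpowers u := by
    intro u hu
    have hpg : IsPGroup p (zpowers u) := IsPGroup.of_card (n := 1) (by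
      rw [Nat.card_zpowers, hu, pow_one])
    obtain ⟨P, hP⟩ := hpg.exists_le_sylow
    refine ⟨P, ?_⟩
    symm
    apply Subgroup.eq_of_le_of_card_ge hP
    rw [Nat.card_zpowers, hu, P.card_eq_multiplicity]
    calc p ^ (Nat.card F).factorization p ≤ p ^ 1 := Nat.pow_le_pow_right hp.pos hfac
      _ = p := pow_one p
  obtain ⟨P, hP⟩ := key ⟨g, hgF⟩ (by rw [← hgo]; simp)
  obtain ⟨Q, hQ⟩ := key ⟨h, hhF⟩ (by rw [← hho]; simp)
  obtain ⟨f, hf⟩ := MulAction.exists_smul_eq F Q P
  refine ⟨f, f.2.1, (hR f).1 f.2.2, ?_⟩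
  have hmem : f * ⟨h, hhF⟩ * f⁻¹ ∈ (P : Subgroup F) := by
    rw [← hf, Sylow.coe_subgroup_smul]
    have : (⟨h, hhF⟩ : F) ∈ (Q : Subgroup F) := by rw [hQ]; exact mem_zpowers _
    exact Subgroup.smul_mem_pointwise_smul _ (MulAut.conj f) _ this
  rw [hP] at hmem
  obtain ⟨k, hk⟩ := hmem
  refine ⟨k, ?_⟩
  have := congrArg Subtype.val hk
  simpa using this

lemma exists_normalizing {G : Subgroup (Perm X)} (hG : IsPreprimitive G X)
    {p : ℕ} (hp : p.Prime) (hp' : p + 3 ≤ Fintype.card X)
    {g : Perm X} (hgc : g.IsCycle) (hgp : g.support.card = p) (hg : g ∈ G) (π : Perm X)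
    (hπ : ∀ y, y ∉ g.support → π y ∉ g.support) :
    ∃ y ∈ G, (∀ z, z ∉ g.support → y z = π z) ∧ ∃ k : ℤ, y * g * y⁻¹ = g ^ k := by
  classical
  obtain ⟨x, hxG, hx⟩ := exists_agree hG hp hp' hgc hgp hg π
  have hxs : ∀ z, z ∉ g.support → x⁻¹ z ∉ g.support := by
    have hmap : (g.supportᶜ : Finset X).image x = g.supportᶜ := by
      apply Finset.eq_of_subset_of_card_le
      · intro z hz
        obtain ⟨w, hw, rfl⟩ := Finset.mem_image.1 hz
        rw [Finset.mem_compl] at hw ⊢
        rw [hx w hw]; exact hπ w hw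
      · rw [Finset.card_image_of_injective _ x.injective]
    intro z hz
    have : z ∈ (g.supportᶜ : Finset X).image x := by rw [hmap]; simpa using hz
    obtain ⟨w, hw, rfl⟩ := Finset.mem_image.1 this
    simpa using hw
  obtain ⟨f, hfG, hfs, k, hk⟩ := exists_conj_mem_zpowers hp hgc hgp hg
    (h := x * g * x⁻¹) (G.mul_mem (G.mul_mem hxG hg) (G.inv_mem hxG))
    (by
      rw [← hgp, ← hgc.orderOf]
      exact (MulAut.conj x).orderOf_eq g)
    (by
      intro z hz
      by_contra hz'
      have := hxs z hz'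
      rw [notMem_support] at this
      rw [mem_support] at hz
      apply hz
      rw [Perm.mul_apply, Perm.mul_apply, this]
      simp)
  refine ⟨f * x, G.mul_mem hfG hxG, fun z hz => ?_, k, ?_⟩
  · rw [Perm.mul_apply, hx z hz]
    by_contra hne
    exact hπ z hz (hfs (mem_support.2 hne))
  · simp only at hk
    rw [hk]; group

lemma commute_cycle {g c : Perm X} (hgc : g.IsCycle) (hc : Commute c g) :
    ∃ j : ℤ, ∀ x ∈ g.support, c x = (g ^ j) x := by
  obtain ⟨a, ha, hcyc⟩ := hgc
  have hca : g (c a) ≠ c a := by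
    intro h
    apply ha
    have : c (g a) = c a := by rw [← Perm.mul_apply, hc.eq, Perm.mul_apply, h]
    exact c.injective this
  obtain ⟨j, hj⟩ := hcyc hca
  refine ⟨j, fun x hx => ?_⟩
  obtain ⟨i, rfl⟩ := hcyc (mem_support.1 hx)
  rw [← Perm.mul_apply, (hc.zpow_right i).eq, Perm.mul_apply, ← hj, ← Perm.mul_apply,
    ← Perm.mul_apply (g ^ j), ← zpow_add, ← zpow_add, add_comm]

/-- Jordan's theorem on primitive groups containing a cycle of prime length. -/
theorem jordan_prime_cycle {G : Subgroup (Perm X)} (hG : IsPreprimitive G X)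
    {p : ℕ} (hp : p.Prime) (hp' : p + 3 ≤ Fintype.card X)
    {g : Perm X} (hgc : g.IsCycle) (hgp : g.support.card = p) (hg : g ∈ G) :
    alternatingGroup X ≤ G := by
  classical
  have hcard : 2 < (g.supportᶜ : Finset X).card := by
    rw [Finset.card_compl, hgp]; omega
  obtain ⟨a, ha, b, hb, c, hc, hab, hac, hbc⟩ := Finset.two_lt_card.1 hcard
  rw [Finset.mem_compl] at ha hb hc
  have hsw : ∀ u v, u ∉ g.support → v ∉ g.support → ∀ y, y ∉ g.support →
      swap u v y ∉ g.support := by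
    intro u v hu hv y hy
    rw [swap_apply_def]; split_ifs <;> assumption
  have hsw' : ∀ u v, u ∉ g.support → v ∉ g.support → ∀ y, y ∈ g.support →
      swap u v y = y := by
    intro u v hu hv y hy
    apply swap_apply_of_ne_of_ne <;> (rintro rfl; contradiction)
  obtain ⟨y1, hy1G, hy1, k1, hk1⟩ :=
    exists_normalizing hG hp hp' hgc hgp hg (swap a b) (hsw a b ha hb)
  obtain ⟨y2, hy2G, hy2, k2, hk2⟩ :=
    exists_normalizing hG hp hp' hgc hgp hg (swap a c) (hsw a c ha hc)
  have hy1' : ∀ z, z ∉ g.support → y1⁻¹ z = swap a b z := by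
    intro z hz
    rw [Perm.inv_eq_iff_eq, hy1 _ (hsw a b ha hb z hz), swap_apply_self]
  have hy2' : ∀ z, z ∉ g.support → y2⁻¹ z = swap a c z := by
    intro z hz
    rw [Perm.inv_eq_iff_eq, hy2 _ (hsw a c ha hc z hz), swap_apply_self]
  set w := y1⁻¹ * y2⁻¹ * y1 * y2 with hw
  have hcomm : Commute w g := by
    have e1 : y1 * y2 * g * (y1 * y2)⁻¹ = g ^ (k1 * k2) := by
      calc y1 * y2 * g * (y1 * y2)⁻¹ = y1 * (y2 * g * y2⁻¹) * y1⁻¹ := by group
        _ = (y1 * g * y1⁻¹) ^ k2 := by rw [hk2, conj_zpow]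
        _ = g ^ (k1 * k2) := by rw [hk1, zpow_mul]
    have e2 : y2 * y1 * g * (y2 * y1)⁻¹ = g ^ (k1 * k2) := by
      calc y2 * y1 * g * (y2 * y1)⁻¹ = y2 * (y1 * g * y1⁻¹) * y2⁻¹ := by group
        _ = (y2 * g * y2⁻¹) ^ k1 := by rw [hk1, conj_zpow]
        _ = g ^ (k1 * k2) := by rw [hk2, mul_comm, zpow_mul]
    have e3 : w * g * w⁻¹ = g := by
      calc w * g * w⁻¹ = (y2 * y1)⁻¹ * (y1 * y2 * g * (y1 * y2)⁻¹) * (y2 * y1) := by
            rw [hw]; group
        _ = (y2 * y1)⁻¹ * (y2 * y1 * g * (y2 * y1)⁻¹) * (y2 * y1) := by rw [e1, e2]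
        _ = g := by group
    show w * g = g * w
    calc w * g = w * g * w⁻¹ * w := by group
      _ = g * w := by rw [e3]
  obtain ⟨j, hj⟩ := commute_cycle hgc hcomm
  have h3 : IsThreeCycle ((swap a b * swap a c) * (swap a b * swap a c)) :=
    (isThreeCycle_swap_mul_swap_same hab hac hbc).isThreeCycle_sq
  apply alternatingGroup_le_of_isPreprimitive_of_isThreeCycle_mem hG h3
  have : (swap a b * swap a c) * (swap a b * swap a c) = w * g ^ (-j) := by
    ext x
    by_cases hx : x ∈ g.support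
    · have hx' : (g ^ (-j)) x ∈ g.support := by rwa [zpow_apply_mem_support]
      simp only [Perm.mul_apply]
      rw [hsw' a c ha hc x hx, hsw' a b ha hb x hx, hsw' a c ha hc x hx, hsw' a b ha hb x hx,
        hj _ hx', ← Perm.mul_apply, ← zpow_add]
      simp
    · have hx' : (g ^ (-j)) x = x := zpow_apply_eq_self_of_apply_eq_self (notMem_support.1 hx) _
      have s1 := hsw a c ha hc x hx
      have s2 := hsw a b ha hb _ s1
      have s3 := hsw a c ha hc _ s2
      simp only [Perm.mul_apply, hw]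
      rw [hx', hy2 x hx, hy1 _ s1, hy2' _ s2, hy1' _ s3]
  rw [this]
  exact G.mul_mem (G.mul_mem (G.mul_mem (G.mul_mem (G.inv_mem hy1G) (G.inv_mem hy2G)) hy1G) hy2G)
    (G.zpow_mem hg _)

end Pool.Agent.MP_afae70_pr

end MrgPart0

-- ======== part 1: formerly Pool.Agent.MP_afae70_pr.Parts
section MrgPart1

set_option autoImplicit false

open Finset

namespace Pool.Agent.MP_afae70_pr

/-- Partitions of n as multisets. -/
def PP (n : ℕ) : Finset (Multiset ℕ) :=
  (univ : Finset (Nat.Partition n)).image Nat.Partition.parts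

lemma mem_PP {n : ℕ} {m : Multiset ℕ} : m ∈ PP n ↔ m.sum = n ∧ ∀ a ∈ m, 0 < a := by
  constructor
  · intro h
    obtain ⟨q, -, rfl⟩ := mem_image.1 h
    exact ⟨q.parts_sum, fun a ha => q.parts_pos ha⟩
  · rintro ⟨h1, h2⟩
    exact mem_image.2 ⟨⟨m, fun {a} ha => h2 a ha, h1⟩, mem_univ _, rfl⟩

/-- Size of the centraliser of a permutation with the given cycle lengths. -/
def cz (m : Multiset ℕ) : ℕ := m.prod * ∏ j ∈ m.toFinset, (m.count j).factorial

lemma cz_cons (j : ℕ) (m : Multiset ℕ) : cz (j ::ₘ m) = j * (m.count j + 1) * cz m := by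
  unfold cz
  rw [Multiset.prod_cons, Multiset.toFinset_cons]
  have h1 : ∏ i ∈ insert j m.toFinset, ((j ::ₘ m).count i).factorial
      = (m.count j + 1) * ∏ i ∈ m.toFinset, (m.count i).factorial := by
    have h2 : ∏ i ∈ m.toFinset, (m.count i).factorial
        = ∏ i ∈ insert j m.toFinset, (m.count i).factorial := by
      by_cases hj : j ∈ m.toFinset
      · rw [insert_eq_of_mem hj]
      · rw [prod_insert hj, Multiset.count_eq_zero.2 (by simpa using hj)]; simp
    rw [h2, ← mul_prod_erase _ _ (mem_insert_self j m.toFinset),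
      ← mul_prod_erase _ _ (mem_insert_self j m.toFinset), Multiset.count_cons_self,
      Nat.factorial_succ, mul_assoc]
    congr 2
    apply prod_congr rfl
    intro i hi
    rw [Multiset.count_cons_of_ne (ne_of_mem_erase hi)]
  rw [h1]; ring

lemma cz_pos {m : Multiset ℕ} (h : ∀ a ∈ m, 0 < a) : 0 < cz m := by
  unfold cz
  apply Nat.mul_pos (Multiset.prod_pos h)
  exact prod_pos fun i _ => Nat.factorial_pos _

lemma cz_add_replicate_one (c : Multiset ℕ) (hc : 1 ∉ c) (k : ℕ) :
    cz (c + Multiset.replicate k 1) = k.factorial * cz c := by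
  induction k with
  | zero => simp
  | succ k ih =>
    rw [Multiset.replicate_succ, Multiset.add_cons, cz_cons, ih, Multiset.count_add,
      Multiset.count_eq_zero.2 hc, Multiset.count_replicate_self, Nat.factorial_succ]
    ring

/-- Cauchy's formula. -/
lemma card_parts_mul (n : ℕ) {m : Multiset ℕ} (hm : m ∈ PP n) :
    #{σ : Equiv.Perm (Fin n) | σ.partition.parts = m} * cz m = n.factorial := by
  obtain ⟨hs, hpos⟩ := mem_PP.1 hm
  set c := m.filter (fun a => 2 ≤ a) with hc
  have hmc : m = c + Multiset.replicate (n - c.sum) 1 := by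
    have h1 : m = c + m.filter (fun a => ¬ 2 ≤ a) := (Multiset.filter_add_not _ m).symm
    have h2 : m.filter (fun a => ¬ 2 ≤ a)
        = Multiset.replicate (m.filter (fun a => ¬ 2 ≤ a)).card 1 := by
      rw [Multiset.eq_replicate]
      refine ⟨rfl, fun b hb => ?_⟩
      rw [Multiset.mem_filter] at hb
      have := hpos b hb.1
      omega
    have h3 : (m.filter (fun a => ¬ 2 ≤ a)).card = n - c.sum := by
      have := congrArg Multiset.sum h1
      rw [Multiset.sum_add, h2, Multiset.sum_replicate, hs] at this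
      simp at this ⊢
      omega
    rw [← h3, ← h2]; exact h1
  have hcs : c.sum ≤ n := by
    have := congrArg Multiset.sum hmc
    rw [Multiset.sum_add, hs] at this
    omega
  have hset : ({σ : Equiv.Perm (Fin n) | σ.partition.parts = m} : Finset (Equiv.Perm (Fin n)))
      = ({σ : Equiv.Perm (Fin n) | σ.cycleType = c} : Finset (Equiv.Perm (Fin n))) := by
    ext σ
    simp only [mem_filter, mem_univ, true_and]
    constructor
    · intro h
      rw [hc, ← h, Equiv.Perm.filter_parts_partition_eq_cycleType]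
    · intro h
      rw [Equiv.Perm.parts_partition, ← Equiv.Perm.sum_cycleType, h, Fintype.card_fin]
      exact hmc.symm
  have h1c : 1 ∉ c := by
    intro h; rw [hc, Multiset.mem_filter] at h; omega
  have := Equiv.Perm.card_of_cycleType_mul_eq (Fin n) c
  rw [if_pos ⟨by simpa using hcs, fun a ha => (Multiset.mem_filter.1 ha).2⟩,
    Fintype.card_fin] at this
  rw [hset, ← this]
  congr 1
  conv_lhs => rw [hmc, cz_add_replicate_one c h1c]
  unfold cz; ring

/-- Weighted sum over the partitions of n. -/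
noncomputable def EE (α : ℝ) (n : ℕ) (F : Multiset ℕ → ℝ) : ℝ :=
  ∑ m ∈ PP n, α ^ m.card / (cz m : ℝ) * F m

lemma sum_perm_eq (α : ℝ) (n : ℕ) (F : Multiset ℕ → ℝ) :
    ∑ σ : Equiv.Perm (Fin n), α ^ σ.partition.parts.card * F σ.partition.parts
      = n.factorial * EE α n F := by
  have hmap : ∀ σ ∈ (univ : Finset (Equiv.Perm (Fin n))), σ.partition.parts ∈ PP n := by
    intro σ _
    rw [mem_PP]
    exact ⟨by simpa using σ.partition.parts_sum, fun a ha => σ.partition.parts_pos ha⟩
  rw [← sum_fiberwise_of_maps_to hmap, EE, mul_sum]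
  apply sum_congr rfl
  intro m hm
  rw [sum_congr rfl (g := fun _ => α ^ m.card * F m)
    (fun σ hσ => by rw [(mem_filter.1 hσ).2]), sum_const, nsmul_eq_mul]
  have h1 : ((#{σ : Equiv.Perm (Fin n) | σ.partition.parts = m} : ℕ) : ℝ) * cz m
      = n.factorial := by exact_mod_cast card_parts_mul n hm
  have h2 : (cz m : ℝ) ≠ 0 := by exact_mod_cast (cz_pos (mem_PP.1 hm).2).ne'
  rw [← h1]; field_simp

lemma EE_count (α : ℝ) {n j : ℕ} (hj : 1 ≤ j) (hjn : j ≤ n) (F : Multiset ℕ → ℝ) :
    EE α n (fun m => (j * m.count j : ℝ) * F m) = α * EE α (n - j) (fun m => F (j ::ₘ m)) := by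
  unfold EE
  rw [mul_sum, ← sum_filter_add_sum_filter_not (PP n) (fun m => j ∈ m)]
  rw [sum_eq_zero (s := (PP n).filter (fun m => ¬ j ∈ m))
    (fun m hm => by simp [Multiset.count_eq_zero.2 (mem_filter.1 hm).2]), add_zero]
  symm
  apply sum_nbij' (fun m => j ::ₘ m) (fun m => m.erase j)
  · intro m hm
    rw [mem_PP] at hm
    rw [mem_filter, mem_PP]
    refine ⟨⟨by rw [Multiset.sum_cons, hm.1]; omega, ?_⟩, Multiset.mem_cons_self _ _⟩
    intro a ha
    rcases Multiset.mem_cons.1 ha with rfl | h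
    · omega
    · exact hm.2 a h
  · intro m hm
    rw [mem_filter, mem_PP] at hm
    rw [mem_PP]
    refine ⟨?_, fun a ha => hm.1.2 a (Multiset.mem_of_mem_erase ha)⟩
    have := congrArg Multiset.sum (Multiset.cons_erase hm.2)
    rw [Multiset.sum_cons, hm.1.1] at this
    omega
  · intro m _; simp
  · intro m hm; exact Multiset.cons_erase (mem_filter.1 hm).2
  · intro m hm
    have h2 : (cz m : ℝ) ≠ 0 := by exact_mod_cast (cz_pos (mem_PP.1 hm).2).ne'
    have h3 : (j : ℝ) ≠ 0 := by exact_mod_cast (by omega : j ≠ 0)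
    simp only [cz_cons, Multiset.card_cons, Multiset.count_cons_self]
    push_cast
    have h4 : (m.count j : ℝ) + 1 ≠ 0 := by positivity
    field_simp
    ring

lemma EE_sum {ι : Type} (α : ℝ) (n : ℕ) (S : Finset ι) (F : ι → Multiset ℕ → ℝ) :
    EE α n (fun m => ∑ j ∈ S, F j m) = ∑ j ∈ S, EE α n (F j) := by
  unfold EE
  simp_rw [mul_sum]
  exact sum_comm

lemma EE_congr (α : ℝ) (n : ℕ) {F G : Multiset ℕ → ℝ} (h : ∀ m ∈ PP n, F m = G m) :
    EE α n F = EE α n G := sum_congr rfl fun m hm => by rw [h m hm]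

lemma EE_mono {α : ℝ} (hα : 0 ≤ α) (n : ℕ) {F G : Multiset ℕ → ℝ}
    (h : ∀ m ∈ PP n, F m ≤ G m) : EE α n F ≤ EE α n G :=
  sum_le_sum fun m hm => mul_le_mul_of_nonneg_left (h m hm) (by positivity)

lemma EE_const_mul (α : ℝ) (n : ℕ) (c : ℝ) (F : Multiset ℕ → ℝ) :
    EE α n (fun m => c * F m) = c * EE α n F := by
  unfold EE
  rw [mul_sum]
  exact sum_congr rfl fun m _ => by ring

lemma EE_add (α : ℝ) (n : ℕ) (F G : Multiset ℕ → ℝ) :
    EE α n (fun m => F m + G m) = EE α n F + EE α n G := by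
  unfold EE
  rw [← sum_add_distrib]
  exact sum_congr rfl fun m _ => by ring

lemma EE_nonneg {α : ℝ} (hα : 0 ≤ α) (n : ℕ) {F : Multiset ℕ → ℝ} (h : ∀ m, 0 ≤ F m) :
    0 ≤ EE α n F :=
  sum_nonneg fun m _ => mul_nonneg (by positivity) (h m)

lemma sum_mul_count (S : Finset ℕ) (m : Multiset ℕ) :
    ∑ j ∈ S, j * m.count j = (m.filter (fun a => a ∈ S)).sum := by
  induction m using Multiset.induction_on with
  | empty => simp
  | cons a m ih =>
    by_cases ha : a ∈ S
    · rw [Multiset.filter_cons_of_pos _ ha, Multiset.sum_cons, ← ih]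
      simp_rw [Multiset.count_cons, mul_add, sum_add_distrib]
      simp [ha, add_comm]
    · rw [Multiset.filter_cons_of_neg _ ha, ← ih]
      apply sum_congr rfl
      intro j hj
      rw [Multiset.count_cons_of_ne (by rintro rfl; contradiction)]

/-- The size-biased recursion restricted to a set S of part sizes. -/
lemma EE_filter_sum (α : ℝ) {n : ℕ} {S : Finset ℕ} (hS : S ⊆ Icc 1 n) (F : Multiset ℕ → ℝ) :
    EE α n (fun m => ((m.filter (fun a => a ∈ S)).sum : ℝ) * F m)
      = α * ∑ j ∈ S, EE α (n - j) (fun m => F (j ::ₘ m)) := by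
  rw [mul_sum, ← sum_congr rfl (fun j hj =>
    EE_count α (mem_Icc.1 (hS hj)).1 (mem_Icc.1 (hS hj)).2 F), ← EE_sum]
  apply EE_congr
  intro m _
  rw [← sum_mul_count, ← sum_mul]
  push_cast
  rfl

/-- Total weight. -/
noncomputable def hh (α : ℝ) (n : ℕ) : ℝ := EE α n (fun _ => 1)

lemma hh_zero (α : ℝ) : hh α 0 = 1 := by
  have : PP 0 = {0} := by
    ext m
    rw [mem_PP, mem_singleton]
    constructor
    · rintro ⟨h1, h2⟩
      rw [Multiset.sum_eq_zero_iff] at h1
      exact Multiset.eq_zero_of_forall_notMem fun a ha => (h2 a ha).ne' (h1 a ha)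
    · rintro rfl; simp
  simp [hh, EE, this, cz]

lemma sum_Icc_reflect (f : ℕ → ℝ) {L n : ℕ} (hL : L ≤ n) :
    ∑ j ∈ Icc L n, f (n - j) = ∑ s ∈ range (n - L + 1), f s := by
  apply sum_nbij' (fun j => n - j) (fun s => n - s)
  · intro j hj; simp only [mem_Icc, mem_range] at hj ⊢; omega
  · intro j hj; simp only [mem_Icc, mem_range] at hj ⊢; omega
  · intro j hj; simp only [mem_Icc] at hj; omega
  · intro j hj; simp only [mem_range] at hj; omega
  · intro j _; rfl

lemma hh_succ_eq_sum (α : ℝ) (n : ℕ) :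
    ((n : ℝ) + 1) * hh α (n + 1) = α * ∑ s ∈ range (n + 1), hh α s := by
  have := EE_filter_sum α (n := n + 1) (S := Icc 1 (n + 1)) subset_rfl (fun _ => 1)
  rw [sum_Icc_reflect (fun s => EE α s (fun _ => 1)) (by omega)] at this
  rw [hh, ← EE_const_mul]
  simp only [add_tsub_cancel_right] at this
  unfold hh
  rw [← this]
  apply EE_congr
  intro m hm
  rw [mem_PP] at hm
  rw [Multiset.filter_eq_self.2, hm.1]
  · push_cast; ring
  · intro a ha
    rw [mem_Icc]
    exact ⟨hm.2 a ha, hm.1 ▸ Multiset.single_le_sum (by simp) a ha⟩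

lemma hh_succ (α : ℝ) (n : ℕ) : ((n : ℝ) + 1) * hh α (n + 1) = (α + n) * hh α n := by
  cases n with
  | zero => have := hh_succ_eq_sum α 0; simpa using this
  | succ n =>
    have h1 := hh_succ_eq_sum α n
    have h2 := hh_succ_eq_sum α (n + 1)
    rw [sum_range_succ, mul_add, ← h1] at h2
    rw [h2]; push_cast; ring

lemma factorial_mul_hh (α : ℝ) (n : ℕ) :
    (n.factorial : ℝ) * hh α n = ∏ i ∈ range n, (α + i) := by
  induction n with
  | zero => simp [hh_zero]
  | succ n ih =>
    rw [prod_range_succ, ← ih, Nat.factorial_succ]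
    push_cast
    have := hh_succ α n
    calc ((n : ℝ) + 1) * n.factorial * hh α (n + 1)
        = n.factorial * (((n : ℝ) + 1) * hh α (n + 1)) := by ring
      _ = _ := by rw [this]; ring

lemma hh_pos {α : ℝ} (hα : 0 < α) (n : ℕ) : 0 < hh α n := by
  have h1 : 0 < (n.factorial : ℝ) * hh α n := by
    rw [factorial_mul_hh]; exact prod_pos fun i _ => by positivity
  exact (mul_pos_iff_of_pos_left (by positivity)).1 h1

end Pool.Agent.MP_afae70_pr

end MrgPart1

-- ======== part 2: formerly Pool.Agent.MP_afae70_pr.Estimates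
section MrgPart2

set_option autoImplicit false

open Finset

namespace Pool.Agent.MP_afae70_pr

/-- Partial sums of the total weights. -/
noncomputable def HH (α : ℝ) (r : ℕ) : ℝ := ∑ s ∈ range (r + 1), hh α s

variable {α : ℝ}

lemma HH_pos (hα : 0 < α) (r : ℕ) : 0 < HH α r :=
  sum_pos (fun s _ => hh_pos hα s) ⟨0, by simp⟩

lemma hh_succ_HH (α : ℝ) (r : ℕ) : ((r : ℝ) + 1) * hh α (r + 1) = α * HH α r :=
  hh_succ_eq_sum α r

lemma HH_succ (α : ℝ) (r : ℕ) : HH α (r + 1) = HH α r * (1 + α / (r + 1)) := by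
  have h := hh_succ_HH α r
  have h1 : HH α (r + 1) = HH α r + hh α (r + 1) := sum_range_succ _ _
  have h2 : ((r : ℝ) + 1) ≠ 0 := by positivity
  rw [h1]
  field_simp
  linarith

lemma HH_mono (hα : 0 < α) : Monotone (HH α) := by
  apply monotone_nat_of_le_succ
  intro r
  have h1 : HH α (r + 1) = HH α r + hh α (r + 1) := sum_range_succ _ _
  rw [h1]
  linarith [hh_pos hα (r + 1)]

lemma HH_ratio (hα : 0 < α) {A : ℕ} (hA : α ≤ A) {x y : ℕ} (hxy : x ≤ y) :
    HH α y * ((x : ℝ) + 1) ^ A ≤ HH α x * ((y : ℝ) + 1) ^ A := by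
  induction y, hxy using Nat.le_induction with
  | base => exact le_rfl
  | succ y hxy ih =>
    have hy : (0 : ℝ) < (y : ℝ) + 1 := by positivity
    have h1 : 1 + α / (y + 1) ≤ (1 + 1 / ((y : ℝ) + 1)) ^ A := by
      refine le_trans ?_ (one_add_mul_le_pow (by
        have : (0 : ℝ) ≤ 1 / ((y : ℝ) + 1) := by positivity
        linarith) A)
      rw [mul_one_div]
      gcongr
    have h2 : (1 + 1 / ((y : ℝ) + 1)) ^ A * ((y : ℝ) + 1) ^ A = (((y + 1 : ℕ) : ℝ) + 1) ^ A := by
      rw [← mul_pow]; congr 1; push_cast; field_simp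
    have h3 : 0 ≤ 1 + α / (y + 1) := by positivity
    rw [HH_succ, ← h2]
    calc HH α y * (1 + α / (y + 1)) * ((x : ℝ) + 1) ^ A
        = (HH α y * ((x : ℝ) + 1) ^ A) * (1 + α / (y + 1)) := by ring
      _ ≤ (HH α x * ((y : ℝ) + 1) ^ A) * (1 + 1 / ((y : ℝ) + 1)) ^ A :=
        mul_le_mul ih h1 h3 (by have := HH_pos hα x; positivity)
      _ = _ := by ring

lemma HH_shift (hα : 0 < α) {A : ℕ} (hA : α ≤ A) {L r : ℕ} (hL : 1 ≤ L) (hLr : L ≤ r + 1) :
    HH α (r + A * L) * ((r : ℝ) + 1) ≤ HH α (r + 1 - L + A * L) * ((r : ℝ) + 1 + A * L) := by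
  set M : ℝ := (r : ℝ) + 1 + A * L with hM
  have hM0 : 0 < M := by positivity
  have h1 := HH_ratio hα hA (x := r + 1 - L + A * L) (y := r + A * L) (by omega)
  have e1 : ((r + A * L : ℕ) : ℝ) + 1 = M := by push_cast; ring
  have e2 : ((r + 1 - L + A * L : ℕ) : ℝ) + 1 = M - L + 1 := by
    push_cast [Nat.cast_sub hLr]; ring
  rw [e1, e2] at h1
  have hLM : (L : ℝ) ≤ M := by
    have : (L : ℝ) ≤ r + 1 := by exact_mod_cast hLr
    have : (0 : ℝ) ≤ A * L := by positivity
    linarith
  have h2 : M ^ A * (1 + A * (-(L / M))) ≤ (M - L + 1) ^ A := by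
    have h3 := one_add_mul_le_pow (a := -(L / M)) (by
      have : (L : ℝ) / M ≤ 1 := (div_le_one hM0).2 hLM
      linarith) A
    calc M ^ A * (1 + A * (-(L / M))) ≤ M ^ A * (1 + -(L / M)) ^ A := by gcongr
      _ = (M - L) ^ A := by rw [← mul_pow]; congr 1; field_simp; ring
      _ ≤ (M - L + 1) ^ A := by gcongr; linarith
  have e3 : M * (1 + A * (-(L / M))) = r + 1 := by
    field_simp; rw [hM]; ring
  have hp := HH_pos hα (r + A * L)
  have hMA : 0 < M ^ A := by positivity
  apply le_of_mul_le_mul_left _ hMA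
  calc M ^ A * (HH α (r + A * L) * ((r : ℝ) + 1))
      = M * (HH α (r + A * L) * (M ^ A * (1 + A * (-(L / M))))) := by rw [← e3]; ring
    _ ≤ M * (HH α (r + A * L) * (M - L + 1) ^ A) := by gcongr
    _ ≤ M * (HH α (r + 1 - L + A * L) * M ^ A) := by gcongr
    _ = _ := by ring

lemma delay (hα : 0 < α) {A : ℕ} (hA : α ≤ A) {L k : ℕ} (hL : 1 ≤ L) (u : ℕ → ℝ)
    (hu : ∀ s, 0 ≤ u s) {c : ℝ} (hc : 0 ≤ c)
    (hbase : c * HH α (k + L + A * L) ≤ ∑ s ∈ range (k + 1), u s)
    (hrec : ∀ r, L ≤ r → α * ∑ s ∈ range (r - L + 1), u s ≤ r * u r) :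
    ∀ r, k ≤ r → c * HH α (r + A * L) ≤ ∑ s ∈ range (r + 1), u s := by
  intro r
  induction r using Nat.strong_induction_on with
  | _ r ih =>
    intro hr
    by_cases h : r < k + L
    · calc c * HH α (r + A * L) ≤ c * HH α (k + L + A * L) := by
            gcongr; exact HH_mono hα (by omega)
        _ ≤ _ := hbase
        _ ≤ _ := sum_le_sum_of_subset_of_nonneg (range_mono (by omega)) fun s _ _ => hu s
    · obtain ⟨r, rfl⟩ : ∃ r', r = r' + 1 := ⟨r - 1, by omega⟩
      have h1 := ih r (by omega) (by omega)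
      have h2 := ih (r + 1 - L) (by omega) (by omega)
      have h3 := hrec (r + 1) (by omega)
      have h4 := HH_shift hα hA hL (r := r) (by omega)
      rw [sum_range_succ, show r + 1 + A * L = (r + A * L) + 1 by ring, HH_succ]
      have hM : (0 : ℝ) < (r : ℝ) + 1 + A * L := by positivity
      have hr1 : (0 : ℝ) < (r : ℝ) + 1 := by positivity
      have h5 : c * HH α (r + A * L) * (α / (((r + A * L : ℕ) : ℝ) + 1)) ≤ u (r + 1) := by
        push_cast at h3 ⊢
        rw [show (r : ℝ) + A * L + 1 = r + 1 + A * L by ring, ← mul_div_assoc, div_le_iff₀ hM]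
        apply le_of_mul_le_mul_left _ hr1
        calc ((r : ℝ) + 1) * (c * HH α (r + A * L) * α)
            = c * α * (HH α (r + A * L) * ((r : ℝ) + 1)) := by ring
          _ ≤ c * α * (HH α (r + 1 - L + A * L) * ((r : ℝ) + 1 + A * L)) := by gcongr
          _ = α * (c * HH α (r + 1 - L + A * L)) * ((r : ℝ) + 1 + A * L) := by ring
          _ ≤ α * (∑ s ∈ range (r + 1 - L + 1), u s) * ((r : ℝ) + 1 + A * L) := by gcongr
          _ ≤ (((r : ℝ) + 1) * u (r + 1)) * ((r : ℝ) + 1 + A * L) := by gcongr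
          _ = _ := by ring
      nlinarith

lemma filter_sum_le (q : ℕ → Prop) [DecidablePred q] (m : Multiset ℕ) :
    (m.filter q).sum ≤ m.sum := by
  conv_rhs => rw [← Multiset.filter_add_not q m, Multiset.sum_add]
  exact Nat.le_add_right _ _

/-- Total length of the parts smaller than L. -/
def smallSum (L : ℕ) (m : Multiset ℕ) : ℕ := (m.filter (fun a => a < L)).sum

/-- Estimate A: with probability bounded below, the parts below L have total less than K. -/
lemma estA (hα : 0 < α) : ∃ δ : ℝ, 0 < δ ∧ ∀ n K L : ℕ, 1 ≤ n → 1 ≤ K → 1 ≤ L → L ≤ 2 * K →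
    K + L ≤ n + 1 → δ * hh α n ≤ EE α n (fun m => if smallSum L m < K then 1 else 0) := by
  set A := ⌈α⌉₊ with hAdef
  have hA : α ≤ A := Nat.le_ceil α
  have hA1 : 1 ≤ A := Nat.ceil_pos.2 hα
  refine ⟨1 / (2 * (A : ℝ) + 3) ^ A, by positivity, fun n K L hn hK hL hLK hn' => ?_⟩
  obtain ⟨k, rfl⟩ : ∃ k, K = k + 1 := ⟨K - 1, by omega⟩
  set u : ℕ → ℝ := fun s => EE α s (fun m => if smallSum L m < k + 1 then 1 else 0) with hu
  have hu0 : ∀ s, 0 ≤ u s := fun s => EE_nonneg hα.le s fun m => by split_ifs <;> norm_num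
  have hrec : ∀ r, L ≤ r → α * ∑ s ∈ range (r - L + 1), u s ≤ r * u r := by
    intro r hr
    have h1 := EE_filter_sum α (n := r) (S := Icc L r) (Icc_subset_Icc_left hL)
      (fun m => if smallSum L m < k + 1 then 1 else 0)
    have h2 : ∑ j ∈ Icc L r, EE α (r - j)
        (fun m => if smallSum L (j ::ₘ m) < k + 1 then (1 : ℝ) else 0) = ∑ j ∈ Icc L r, u (r - j) := by
      apply sum_congr rfl
      intro j hj
      apply EE_congr
      intro m _
      have : smallSum L (j ::ₘ m) = smallSum L m := by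
        unfold smallSum
        rw [Multiset.filter_cons_of_neg]
        have := (mem_Icc.1 hj).1
        omega
      rw [this]
    rw [h2, sum_Icc_reflect u hr] at h1
    rw [← h1, hu, ← EE_const_mul]
    apply EE_mono hα.le
    intro m hm
    have : (m.filter (fun a => a ∈ Icc L r)).sum ≤ r := by
      rw [← (mem_PP.1 hm).1]
      exact filter_sum_le _ _
    have h3 : (((m.filter (fun a => a ∈ Icc L r)).sum : ℕ) : ℝ) ≤ r := by exact_mod_cast this
    gcongr
  have hbase : 1 / (2 * (A : ℝ) + 3) ^ A * HH α (k + L + A * L) ≤ ∑ s ∈ range (k + 1), u s := by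
    have h1 : ∑ s ∈ range (k + 1), u s = HH α k := by
      apply sum_congr rfl
      intro s hs
      apply EE_congr
      intro m hm
      rw [if_pos]
      have : smallSum L m ≤ m.sum := filter_sum_le _ _
      rw [(mem_PP.1 hm).1] at this
      have := mem_range.1 hs
      omega
    have h2 := HH_ratio hα hA (x := k) (y := k + L + A * L) (by omega)
    have h3 : (((k + L + A * L : ℕ) : ℝ) + 1) ≤ (2 * (A : ℝ) + 3) * ((k : ℝ) + 1) := by
      have : (L : ℝ) ≤ 2 * (k + 1) := by exact_mod_cast hLK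
      have hA0 : (0 : ℝ) ≤ A := by positivity
      push_cast
      nlinarith
    have h4 : (((k + L + A * L : ℕ) : ℝ) + 1) ^ A ≤ (2 * (A : ℝ) + 3) ^ A * ((k : ℝ) + 1) ^ A := by
      rw [← mul_pow]; gcongr
    have hk : (0 : ℝ) < ((k : ℝ) + 1) ^ A := by positivity
    have hp := HH_pos hα k
    rw [h1, one_div, inv_mul_le_iff₀ (by positivity)]
    apply le_of_mul_le_mul_right _ hk
    calc _ ≤ _ := h2
      _ ≤ HH α k * ((2 * (A : ℝ) + 3) ^ A * ((k : ℝ) + 1) ^ A) := by gcongr
      _ = _ := by ring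
  have hmain := delay hα hA hL u hu0 (by positivity) hbase hrec (n - L) (by omega)
  have h5 := hrec n (by omega)
  obtain ⟨n, rfl⟩ : ∃ n', n = n' + 1 := ⟨n - 1, by omega⟩
  have h6 := hh_succ_HH α n
  have h7 : HH α n ≤ HH α (n + 1 - L + A * L) := HH_mono hα (by
    have : L ≤ A * L := Nat.le_mul_of_pos_left _ hA1
    omega)
  have hn1 : (0 : ℝ) < (n : ℝ) + 1 := by positivity
  apply le_of_mul_le_mul_left _ hn1
  push_cast at h5
  calc ((n : ℝ) + 1) * (1 / (2 * (A : ℝ) + 3) ^ A * hh α (n + 1))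
      = α * (1 / (2 * (A : ℝ) + 3) ^ A * HH α n) := by
        rw [mul_left_comm, h6]; ring
    _ ≤ α * (1 / (2 * (A : ℝ) + 3) ^ A * HH α (n + 1 - L + A * L)) := by gcongr
    _ ≤ α * ∑ s ∈ range (n + 1 - L + 1), u s := by gcongr
    _ ≤ _ := h5

/-- Estimate B: probability of having a part in a set S of sizes at most 31 n / 32. -/
lemma estB (hα : 0 < α) : ∃ c : ℝ, 0 < c ∧ ∀ (n : ℕ) (S : Finset ℕ), 1 ≤ n →
    (∀ p ∈ S, 1 ≤ p ∧ 32 * p ≤ 31 * n) →
    c * (S.card / n) * hh α n ≤ EE α n (fun m => if ∃ p ∈ S, p ∈ m then 1 else 0) := by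
  set A := ⌈α⌉₊ with hAdef
  have hA : α ≤ A := Nat.le_ceil α
  refine ⟨α / 32 ^ A, by positivity, fun n S hn hS => ?_⟩
  have hn0 : (0 : ℝ) < n := by exact_mod_cast hn
  have h1 := EE_filter_sum α (n := n) (S := S) (fun p hp => by
    have := hS p hp
    rw [mem_Icc]; omega) (fun _ => 1)
  have h2 : EE α n (fun m => ((m.filter (fun a => a ∈ S)).sum : ℝ) * 1)
      ≤ n * EE α n (fun m => if ∃ p ∈ S, p ∈ m then 1 else 0) := by
    rw [← EE_const_mul]
    apply EE_mono hα.le
    intro m hm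
    split_ifs with h
    · have : (m.filter (fun a => a ∈ S)).sum ≤ n := by
        rw [← (mem_PP.1 hm).1]
        exact filter_sum_le _ _
      have h3 : (((m.filter (fun a => a ∈ S)).sum : ℕ) : ℝ) ≤ n := by exact_mod_cast this
      linarith
    · rw [Multiset.filter_eq_nil.2 (fun a ha haS => h ⟨a, haS, ha⟩)]
      simp
  have h3 : ∀ p ∈ S, hh α n / 32 ^ A ≤ hh α (n - p) := by
    intro p hp
    have hp' := hS p hp
    obtain ⟨m, hm⟩ : ∃ m, n - p = m + 1 := ⟨n - p - 1, by omega⟩
    obtain ⟨n, rfl⟩ : ∃ n', n = n' + 1 := ⟨n - 1, by omega⟩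
    rw [hm]
    have a1 := hh_succ_HH α n
    have a2 := hh_succ_HH α m
    have a3 := HH_ratio hα hA (x := m) (y := n) (by omega)
    have a4 : (n : ℝ) + 1 ≤ 32 * ((m : ℝ) + 1) := by
      exact_mod_cast (by omega : n + 1 ≤ 32 * (m + 1))
    have a5 : (m : ℝ) + 1 ≤ (n : ℝ) + 1 := by exact_mod_cast (by omega : m + 1 ≤ n + 1)
    have a6 : ((n : ℝ) + 1) ^ A ≤ 32 ^ A * ((m : ℝ) + 1) ^ A := by rw [← mul_pow]; gcongr
    have hm0 : (0 : ℝ) < ((m : ℝ) + 1) ^ A := by positivity
    have hp1 := HH_pos hα m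
    have a7 : HH α n ≤ HH α m * 32 ^ A := by
      apply le_of_mul_le_mul_right _ hm0
      calc _ ≤ _ := a3
        _ ≤ HH α m * (32 ^ A * ((m : ℝ) + 1) ^ A) := by gcongr
        _ = _ := by ring
    have hp2 := hh_pos hα (m + 1)
    rw [div_le_iff₀ (by positivity)]
    have hn1 : (0 : ℝ) < (n : ℝ) + 1 := Nat.cast_add_one_pos n
    apply le_of_mul_le_mul_left _ hn1
    calc ((n : ℝ) + 1) * hh α (n + 1) = α * HH α n := a1
      _ ≤ α * (HH α m * 32 ^ A) := mul_le_mul_of_nonneg_left a7 hα.le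
      _ = ((m : ℝ) + 1) * hh α (m + 1) * 32 ^ A := by rw [a2, mul_assoc]
      _ ≤ ((n : ℝ) + 1) * hh α (m + 1) * 32 ^ A :=
        mul_le_mul_of_nonneg_right (mul_le_mul_of_nonneg_right a5 hp2.le) (by positivity)
      _ = _ := by ring
  have h4 : (S.card : ℝ) * (hh α n / 32 ^ A) ≤ ∑ j ∈ S, EE α (n - j) (fun _ => 1) := by
    rw [← nsmul_eq_mul, ← sum_const]
    exact sum_le_sum h3
  rw [h1] at h2
  apply le_of_mul_le_mul_left _ hn0
  calc (n : ℝ) * (α / 32 ^ A * (S.card / n) * hh α n)
      = α * ((S.card : ℝ) * (hh α n / 32 ^ A)) := by field_simp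
    _ ≤ α * ∑ j ∈ S, EE α (n - j) (fun _ => 1) := by gcongr
    _ ≤ _ := h2

lemma abs_hh_neg (hα : 0 < α) {n : ℕ} (hn : 2 ≤ n) :
    |hh (-α) n| ≤ |1 - α| / (1 + α) * hh α n := by
  induction n, hn using Nat.le_induction with
  | base =>
    have h1 := factorial_mul_hh α 2
    have h2 := factorial_mul_hh (-α) 2
    simp only [prod_range_succ, prod_range_zero, Nat.factorial] at h1 h2
    norm_num at h1 h2
    have h3 : hh (-α) 2 = -α * (1 - α) / 2 := by linarith
    have h4 : hh α 2 = α * (1 + α) / 2 := by linarith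
    rw [h3, h4, abs_div, abs_mul, abs_neg, abs_of_pos hα, abs_two]
    apply le_of_eq
    field_simp
  | succ n hn ih =>
    have h1 := hh_succ α n
    have h2 := hh_succ (-α) n
    have hn1 : (0 : ℝ) < (n : ℝ) + 1 := by positivity
    apply le_of_mul_le_mul_left _ hn1
    have h3 : ((n : ℝ) + 1) * |hh (-α) (n + 1)| = |-α + n| * |hh (-α) n| := by
      rw [← abs_mul, ← h2, abs_mul, abs_of_pos hn1]
    have h4 : |-α + n| ≤ α + n := by
      have : (0 : ℝ) ≤ n := by positivity
      rw [abs_le]; constructor <;> linarith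
    rw [h3, mul_left_comm, h1]
    calc |-α + n| * |hh (-α) n| ≤ (α + n) * (|1 - α| / (1 + α) * hh α n) := by gcongr
      _ = _ := by ring

/-- Estimate C: odd permutations have probability bounded below. -/
lemma estC (hα : 0 < α) : ∃ δ : ℝ, 0 < δ ∧ ∀ n : ℕ, 2 ≤ n →
    δ * hh α n ≤ EE α n (fun m => if Odd (n + m.card) then 1 else 0) := by
  have hρ : |1 - α| / (1 + α) < 1 := by
    rw [div_lt_one (by positivity), abs_lt]; constructor <;> linarith
  refine ⟨(1 - |1 - α| / (1 + α)) / 2, by linarith, fun n hn => ?_⟩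
  have h1 : EE α n (fun m => if Odd (n + m.card) then 1 else 0)
      = 1 / 2 * hh α n + (-(-1) ^ n / 2) * hh (-α) n := by
    have : hh (-α) n = EE α n (fun m => (-1) ^ m.card) := by
      unfold hh EE
      apply sum_congr rfl
      intro m _
      rw [neg_pow]; ring
    rw [this, hh, ← EE_const_mul, ← EE_const_mul, ← EE_add]
    apply EE_congr
    intro m _
    have e : -(-1 : ℝ) ^ n / 2 * (-1) ^ m.card = -(-1) ^ (n + m.card) / 2 := by
      rw [pow_add]; ring
    rw [e]
    split_ifs with h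
    · rw [h.neg_one_pow]; norm_num
    · rw [(Nat.not_odd_iff_even.1 h).neg_one_pow]; norm_num
  have h2 := abs_hh_neg hα hn
  have h3 : |(-1 : ℝ) ^ n * hh (-α) n| = |hh (-α) n| := by rw [abs_mul]; simp
  have h4 := le_abs_self ((-1 : ℝ) ^ n * hh (-α) n)
  rw [h1]
  linarith

end Pool.Agent.MP_afae70_pr

end MrgPart2

-- ======== part 3: formerly Pool.Agent.MP_afae70_pr.Group
section MrgPart3

set_option autoImplicit false

open Equiv Equiv.Perm MulAction Subgroup

namespace Pool.Agent.MP_afae70_pr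

variable {X : Type} [Fintype X] [DecidableEq X]

lemma le_smallSum_of_invariant (σ : Perm X) (S : Finset X) (hS : ∀ x ∈ S, σ x ∈ S) {L : ℕ}
    (hL : S.card < L) (hL1 : 1 < L) : S.card ≤ smallSum L σ.partition.parts := by
  classical
  have hpow : ∀ (i : ℕ) (x : X), x ∈ S → (σ ^ i) x ∈ S := by
    intro i
    induction i with
    | zero => intro x hx; simpa using hx
    | succ i ih => intro x hx; rw [pow_succ', Perm.mul_apply]; exact hS _ (ih x hx)
  set C := σ.cycleFactorsFinset.filter (fun c => c.support.card < L) with hC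
  have h1 : smallSum L σ.partition.parts
      = ∑ c ∈ C, c.support.card + (σ.supportᶜ).card := by
    unfold smallSum
    rw [parts_partition, Multiset.filter_add, Multiset.sum_add,
      (Multiset.filter_eq_self (s := Multiset.replicate (Fintype.card X - σ.support.card) 1)).2
        (fun a ha => by rw [Multiset.eq_of_mem_replicate ha]; exact hL1),
      Multiset.sum_replicate, Finset.card_compl, cycleType_def, Multiset.filter_map]
    simp only [smul_eq_mul, mul_one]
    rfl
  have h2 : S ⊆ C.biUnion (fun c => c.support) ∪ σ.supportᶜ := by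
    intro x hx
    by_cases hxs : x ∈ σ.support
    · apply Finset.mem_union_left
      rw [Finset.mem_biUnion]
      refine ⟨σ.cycleOf x, ?_, ?_⟩
      · rw [hC, Finset.mem_filter]
        refine ⟨cycleOf_mem_cycleFactorsFinset_iff.2 hxs, lt_of_le_of_lt ?_ hL⟩
        apply Finset.card_le_card
        intro y hy
        rw [mem_support_cycleOf_iff] at hy
        obtain ⟨i, -, rfl⟩ := hy.1.exists_pow_eq'
        exact hpow i x hx
      · rw [mem_support_cycleOf_iff]; exact ⟨SameCycle.refl _ _, hxs⟩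
    · exact Finset.mem_union_right _ (Finset.mem_compl.2 hxs)
  rw [h1]
  exact (Finset.card_le_card h2).trans ((Finset.card_union_le _ _).trans
    (Nat.add_le_add_right Finset.card_biUnion_le _))

lemma exists_cycle_pow (σ : Perm X) {p : ℕ} (hp : p.Prime) (hmem : p ∈ σ.partition.parts)
    (hn : Fintype.card X < 2 * p) :
    ∃ k : ℕ, (σ ^ k).IsCycle ∧ (σ ^ k).support.card = p := by
  have h2 := hp.two_le
  have hc : p ∈ σ.cycleType := by
    rw [← filter_parts_partition_eq_cycleType, Multiset.mem_filter]; exact ⟨hmem, h2⟩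
  obtain ⟨c, τ, rfl, hd, hcc, hcp⟩ := mem_cycleType_iff.1 hc
  have hτ : τ.support.card < p := by
    have h1 := hd.card_support_mul
    have h3 := Finset.card_le_univ (c * τ).support
    omega
  have hτ1 : τ ^ (p - 1).factorial = 1 := by
    rw [← orderOf_dvd_iff_pow_eq_one, ← lcm_cycleType, Multiset.lcm_dvd]
    intro b hb
    apply Nat.dvd_factorial (zero_lt_two.trans_le (two_le_of_mem_cycleType hb))
    have := le_card_support_of_mem_cycleType hb
    omega
  have hnd : ¬ p ∣ (p - 1).factorial := by rw [hp.dvd_factorial]; omega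
  have hco : orderOf c = p := by rw [hcc.orderOf, hcp]
  refine ⟨(p - 1).factorial, ?_⟩
  rw [hd.commute.mul_pow, hτ1, mul_one]
  refine ⟨hcc.pow_iff.2 ?_, ?_⟩
  · rw [hco]; exact ((Nat.Prime.coprime_iff_not_dvd hp).2 hnd).symm
  · rw [hcc.support_pow_eq_iff.2 (by rwa [hco]), hcp]

lemma sign_eq_of_odd (σ : Perm X) (h : Odd (Fintype.card X + σ.partition.parts.card)) :
    sign σ = -1 := by
  rw [sign_of_cycleType, sum_cycleType]
  apply Odd.neg_one_pow
  rw [parts_partition, Multiset.card_add, Multiset.card_replicate] at h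
  have h3 := Finset.card_le_univ σ.support
  rw [Nat.odd_iff] at h ⊢
  omega

theorem closure_eq_top {ι : Type} (ρ : ι → Perm X)
    (h1 : ∀ k, 1 ≤ k → 2 * k ≤ Fintype.card X →
      ∃ i L, k < L ∧ smallSum L (ρ i).partition.parts < k)
    (h2 : ∃ i p, p.Prime ∧ Fintype.card X < 2 * p ∧ p + 3 ≤ Fintype.card X ∧
      p ∈ (ρ i).partition.parts)
    (h3 : ∃ i, Odd (Fintype.card X + (ρ i).partition.parts.card)) :
    closure (Set.range ρ) = ⊤ := by
  classical
  set G := closure (Set.range ρ) with hG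
  have hρ : ∀ i, ρ i ∈ G := fun i => subset_closure ⟨i, rfl⟩
  have hinv : ∀ S : Finset X, (∀ i, ∀ x ∈ S, ρ i x ∈ S) → 1 ≤ S.card →
      2 * S.card ≤ Fintype.card X → False := by
    intro S hS a1 a2
    obtain ⟨i, L, b1, b2⟩ := h1 _ a1 a2
    have := le_smallSum_of_invariant (ρ i) S (hS i) b1 (by omega)
    omega
  have htr : IsPretransitive G X := by
    constructor
    intro x y
    by_contra hxy
    set S : Finset X := Finset.univ.filter (fun z => ∃ g : G, g • x = z) with hS
    have hSi : ∀ (g : G) z, z ∈ S → (g : Perm X) z ∈ S := by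
      intro g z hz
      simp only [hS, Finset.mem_filter, Finset.mem_univ, true_and] at hz ⊢
      obtain ⟨g', rfl⟩ := hz
      exact ⟨g * g', mul_smul _ _ _⟩
    have hx : x ∈ S := by simp only [hS, Finset.mem_filter, Finset.mem_univ, true_and]; exact ⟨1, rfl⟩
    have hy : y ∈ Sᶜ := by simpa [hS] using hxy
    by_cases hc : 2 * S.card ≤ Fintype.card X
    · exact hinv S (fun i => hSi ⟨ρ i, hρ i⟩) (Finset.card_pos.2 ⟨x, hx⟩) hc
    · refine hinv Sᶜ (fun i z hz => ?_) (Finset.card_pos.2 ⟨y, hy⟩)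
        (by rw [Finset.card_compl]; omega)
      rw [Finset.mem_compl] at hz ⊢
      intro hz'
      apply hz
      have := hSi (⟨ρ i, hρ i⟩⁻¹) _ hz'
      simpa using this
  obtain ⟨i, p, hp, hp1, hp2, hp3⟩ := h2
  obtain ⟨k, hk1, hk2⟩ := exists_cycle_pow (ρ i) hp hp3 hp1
  have hkG : ρ i ^ k ∈ G := G.pow_mem (hρ i) k
  have hprim := preprimitive_of_big_cycle htr hp hp1 hk1 hk2 hkG
  have halt := jordan_prime_cycle hprim hp hp2 hk1 hk2 hkG
  obtain ⟨j, hj⟩ := h3
  have hj' := sign_eq_of_odd _ hj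
  rw [eq_top_iff]
  intro g _
  rcases Int.units_eq_one_or (sign g) with h | h
  · exact halt (mem_alternatingGroup.2 h)
  · have : g * (ρ j)⁻¹ ∈ G := halt (mem_alternatingGroup.2 (by simp [h, hj']))
    simpa using G.mul_mem this (hρ j)

end Pool.Agent.MP_afae70_pr

end MrgPart3

-- ======== part 4: formerly Pool.Agent.MP_afae70_pr.Primes
section MrgPart4

set_option autoImplicit false

open Finset Filter

namespace Pool.Agent.MP_afae70_pr

lemma centralBinom_le (n : ℕ) (n_large : 2 < n) :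
    n.centralBinom ≤ (2 * n) ^ Nat.sqrt (2 * n) * 4 ^ (2 * n / 3) *
      ∏ p ∈ (Ioc n (2 * n)).filter Nat.Prime, p := by
  have n_pos : 0 < n := (Nat.zero_le _).trans_lt n_large
  have n2_pos : 1 ≤ 2 * n := by omega
  let f x := x ^ n.centralBinom.factorization x
  have hf1 : ∀ p, ¬ p.Prime → f p = 1 := fun p hp => by
    simp only [f]; rw [Nat.factorization_eq_zero_of_not_prime n.centralBinom hp, pow_zero]
  rw [← Nat.prod_pow_factorization_centralBinom n]
  change ∏ x ∈ range (2 * n + 1), f x ≤ _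
  rw [← prod_filter_mul_prod_filter_not (range (2 * n + 1)) (· ≤ n),
    ← prod_filter_mul_prod_filter_not ((range (2 * n + 1)).filter (· ≤ n)) (· ≤ Nat.sqrt (2 * n))]
  refine Nat.mul_le_mul (Nat.mul_le_mul ?_ ?_) ?_
  · rw [← prod_filter_of_ne (p := Nat.Prime) (fun p _ h => by
      by_contra hp; exact h (hf1 p hp))]
    refine (prod_le_prod' fun p _ => (?_ : f p ≤ 2 * n)).trans ?_
    · exact Nat.pow_factorization_choose_le (mul_pos two_pos n_pos)
    have : (Icc 1 (Nat.sqrt (2 * n))).card = Nat.sqrt (2 * n) := by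
      rw [Nat.card_Icc, Nat.add_sub_cancel]
    rw [prod_const]
    refine pow_right_mono₀ n2_pos ((card_le_card fun x hx => ?_).trans this.le)
    simp only [mem_filter, mem_range] at hx
    exact mem_Icc.mpr ⟨hx.2.one_lt.le, hx.1.2⟩
  · refine le_trans ?_ (primorial_le_four_pow (2 * n / 3))
    rw [← prod_filter_of_ne (p := fun p => p.Prime ∧ p ≤ 2 * n / 3) (fun p hp h => by
      simp only [mem_filter, mem_range] at hp
      refine ⟨by by_contra hp; exact h (hf1 p hp), ?_⟩
      by_contra hlt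
      apply h
      simp only [f]
      rw [Nat.factorization_centralBinom_of_two_mul_self_lt_three_mul n_large hp.1.2 (by omega),
        pow_zero])]
    refine (prod_le_prod' fun p hp => (?_ : f p ≤ p)).trans ?_
    · simp only [mem_filter, mem_range] at hp
      refine (pow_right_mono₀ hp.2.1.one_lt.le ?_).trans (pow_one p).le
      exact Nat.factorization_choose_le_one (Nat.sqrt_lt'.mp <| not_le.1 hp.1.2)
    refine prod_le_prod_of_subset_of_one_le' ?_ ?_
    · intro p hp
      simp only [mem_filter, mem_range] at hp ⊢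
      exact ⟨by omega, hp.2.1⟩
    · exact fun p hp _ => (mem_filter.1 hp).2.one_lt.le
  · rw [← prod_filter_of_ne (p := Nat.Prime) (fun p _ h => by
      by_contra hp; exact h (hf1 p hp))]
    refine (prod_le_prod' fun p hp => (?_ : f p ≤ p)).trans ?_
    · simp only [mem_filter, mem_range] at hp
      refine (pow_right_mono₀ hp.2.one_lt.le ?_).trans (pow_one p).le
      exact Nat.factorization_choose_le_one (by nlinarith [hp.1.2])
    refine prod_le_prod_of_subset_of_one_le' ?_ ?_
    · intro p hp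
      simp only [mem_filter, mem_range, mem_Ioc] at hp ⊢
      exact ⟨by omega, hp.2⟩
    · exact fun p hp _ => (mem_filter.1 hp).2.one_lt.le

lemma prod_top_le (a b : ℕ) (hab : b ≤ a) :
    ∏ p ∈ (Ioc a (a + b)).filter Nat.Prime, p ≤ (a + b).choose a := by
  apply Nat.le_of_dvd (Nat.choose_pos (by omega))
  apply prod_primes_dvd
  · intro p hp; exact (mem_filter.1 hp).2.prime
  · intro p hp
    simp only [mem_filter, mem_Ioc] at hp
    exact hp.2.dvd_choose_add hp.1.1 (by omega) hp.1.2

lemma choose_mul_le (a b : ℕ) : (a + b).choose a * 32 ^ a ≤ 33 ^ (a + b) := by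
  have h := add_pow (32 : ℕ) 1 (a + b)
  rw [show (32 : ℕ) + 1 = 33 from rfl] at h
  rw [h]
  have := single_le_sum (f := fun m => 32 ^ m * 1 ^ (a + b - m) * ((a + b).choose m : ℕ))
    (s := range (a + b + 1)) (fun _ _ => Nat.zero_le _) (a := a) (mem_range.2 (by omega))
  simpa [mul_comm] using this

/-- The primes used. -/
def goodPrimes (n : ℕ) : Finset ℕ :=
  (range (n + 1)).filter (fun p => p.Prime ∧ n < 2 * p ∧ 32 * p ≤ 31 * n)

lemma nat_main (n : ℕ) (hn : 8 ≤ n) :
    4 ^ (n / 2) * 32 ^ (31 * n / 32) ≤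
      n * (n ^ Nat.sqrt n * 4 ^ (n / 3) * n ^ (goodPrimes n).card) * 33 ^ n := by
  set m := n / 2 with hm
  set a := 31 * n / 32 with ha
  have h1 := (Nat.four_pow_lt_mul_centralBinom m (by omega)).le
  have h2 := centralBinom_le m (by omega)
  have h3 := prod_top_le a (n - a) (by omega)
  have h4 := choose_mul_le a (n - a)
  rw [show a + (n - a) = n by omega] at h3 h4
  have h5 : ∏ p ∈ (Ioc m (2 * m)).filter Nat.Prime, p ≤
      n ^ (goodPrimes n).card * ∏ p ∈ (Ioc a n).filter Nat.Prime, p := by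
    rw [← prod_filter_mul_prod_filter_not ((Ioc m (2 * m)).filter Nat.Prime) (· ≤ a)]
    apply Nat.mul_le_mul
    · refine (prod_le_prod_of_subset_of_one_le' (t := goodPrimes n) ?_ ?_).trans ?_
      · intro p hp
        simp only [goodPrimes, mem_filter, mem_range, mem_Ioc] at hp ⊢
        refine ⟨by omega, hp.1.2, by omega, by omega⟩
      · intro p hp _
        exact (mem_filter.1 hp).2.1.one_lt.le
      · apply prod_le_pow_card
        intro p hp
        simp only [goodPrimes, mem_filter, mem_range] at hp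
        omega
    · refine prod_le_prod_of_subset_of_one_le' ?_ ?_
      · intro p hp
        simp only [mem_filter, mem_Ioc] at hp ⊢
        refine ⟨by omega, hp.1.2⟩
      · exact fun p hp _ => (mem_filter.1 hp).2.one_lt.le
  have h6 : (2 * m) ^ Nat.sqrt (2 * m) ≤ n ^ Nat.sqrt n :=
    (Nat.pow_le_pow_left (by omega) _).trans
      (Nat.pow_le_pow_right (by omega) (Nat.sqrt_le_sqrt (by omega)))
  have h7 : 4 ^ (2 * m / 3) ≤ 4 ^ (n / 3) := Nat.pow_le_pow_right (by omega) (by omega)
  calc 4 ^ m * 32 ^ a ≤ (n * (n ^ Nat.sqrt n * 4 ^ (n / 3) *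
        (n ^ (goodPrimes n).card * n.choose a))) * 32 ^ a := by
        apply Nat.mul_le_mul_right
        refine h1.trans (Nat.mul_le_mul (by omega) (h2.trans ?_))
        exact Nat.mul_le_mul (Nat.mul_le_mul h6 h7) (h5.trans (Nat.mul_le_mul_left _ h3))
    _ = n * (n ^ Nat.sqrt n * 4 ^ (n / 3) * n ^ (goodPrimes n).card) * (n.choose a * 32 ^ a) := by
        ring
    _ ≤ _ := Nat.mul_le_mul_left _ h4

lemma log_main (n : ℕ) (hn : 8 ≤ n) :
    (9 / 100 : ℝ) * n - 5 - 2 * √n * Real.log n ≤ (goodPrimes n).card * Real.log n := by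
  have h := nat_main n hn
  have hn0 : (0 : ℝ) < n := by exact_mod_cast (by omega : 0 < n)
  have hn1 : (1 : ℝ) ≤ n := by exact_mod_cast (by omega : 1 ≤ n)
  have h' : (4 : ℝ) ^ (n / 2) * 32 ^ (31 * n / 32) ≤
      n * ((n : ℝ) ^ Nat.sqrt n * 4 ^ (n / 3) * (n : ℝ) ^ (goodPrimes n).card) * 33 ^ n := by
    exact_mod_cast h
  have hl := Real.log_le_log (by positivity) h'
  rw [Real.log_mul (by positivity) (by positivity), Real.log_mul (by positivity) (by positivity),
    Real.log_mul (by positivity) (by positivity), Real.log_mul (by positivity) (by positivity),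
    Real.log_mul (by positivity) (by positivity)] at hl
  simp only [Real.log_pow] at hl
  have l4 : Real.log 4 = 2 * Real.log 2 := by
    rw [show (4 : ℝ) = 2 ^ 2 by norm_num, Real.log_pow]; norm_num
  have l32 : Real.log 32 = 5 * Real.log 2 := by
    rw [show (32 : ℝ) = 2 ^ 5 by norm_num, Real.log_pow]; norm_num
  have l33 : Real.log 33 ≤ 5 * Real.log 2 + 1 / 32 := by
    have := Real.log_le_sub_one_of_pos (show (0 : ℝ) < 33 / 32 by norm_num)
    rw [Real.log_div (by norm_num) (by norm_num)] at this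
    linarith
  have a1 : (n : ℝ) / 2 - 1 / 2 ≤ ((n / 2 : ℕ) : ℝ) := by
    have : (n : ℝ) ≤ 2 * ((n / 2 : ℕ) : ℝ) + 1 := by exact_mod_cast (by omega : n ≤ 2 * (n / 2) + 1)
    linarith
  have a2 : 31 * (n : ℝ) / 32 - 1 ≤ ((31 * n / 32 : ℕ) : ℝ) := by
    have : 31 * (n : ℝ) ≤ 32 * ((31 * n / 32 : ℕ) : ℝ) + 32 := by
      exact_mod_cast (by omega : 31 * n ≤ 32 * (31 * n / 32) + 32)
    linarith
  have a3 : ((n / 3 : ℕ) : ℝ) ≤ (n : ℝ) / 3 := Nat.cast_div_le
  have a4 : ((Nat.sqrt n : ℕ) : ℝ) ≤ √n := Real.nat_sqrt_le_real_sqrt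
  have a5 : (1 : ℝ) ≤ √n := Real.one_le_sqrt.2 hn1
  have l2 := Real.log_two_gt_d9
  have l2' := Real.log_two_lt_d9
  have ln : 0 ≤ Real.log n := Real.log_nonneg hn1
  rw [l4, l32] at hl
  have b1 := mul_le_mul_of_nonneg_right a1 (by linarith : 0 ≤ 2 * Real.log 2)
  have b2 := mul_le_mul_of_nonneg_right a2 (by linarith : 0 ≤ 5 * Real.log 2)
  have b3 := mul_le_mul_of_nonneg_right a3 (by linarith : 0 ≤ 2 * Real.log 2)
  have b4 := mul_le_mul_of_nonneg_right a4 ln
  have b5 := mul_le_mul_of_nonneg_right a5 ln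
  have b6 := mul_le_mul_of_nonneg_left l33 hn0.le
  have b7 := mul_le_mul_of_nonneg_left l2.le hn0.le
  nlinarith

lemma eventually_goodPrimes :
    ∀ᶠ n : ℕ in atTop, (1 / 20 : ℝ) * n ≤ (goodPrimes n).card * Real.log n := by
  have h1 : (fun x : ℝ => Real.log x) =o[atTop] fun x => x ^ (1 / 2 : ℝ) :=
    isLittleO_log_rpow_atTop (by norm_num)
  have h2 := (h1.bound (show (0 : ℝ) < 1 / 100 by norm_num))
  have h3 := tendsto_natCast_atTop_atTop (R := ℝ) |>.eventually h2
  filter_upwards [h3, eventually_ge_atTop 250] with n hn hn'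
  have hn0 : (250 : ℝ) ≤ n := by exact_mod_cast hn'
  have := log_main n (by omega)
  rw [Real.norm_of_nonneg (Real.log_nonneg (by linarith)), Real.norm_of_nonneg (by positivity),
    ← Real.sqrt_eq_rpow] at hn
  have h4 : √(n : ℝ) * √n = n := Real.mul_self_sqrt (by positivity)
  have h5 := mul_le_mul_of_nonneg_left hn (Real.sqrt_nonneg n)
  nlinarith

end Pool.Agent.MP_afae70_pr

end MrgPart4

-- marker of a merged file
example : 731051 + 713749 = 731051 + 713749 := rfl
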